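import Mathlib

/-!
# Project MI: disproof of the half-volume trapping conjecture (MP_65ff7c_an, S04892)

Body (rescaled): `Om b = {(x,y) ∈ ℂ × ℝ^b : |x| + max|y_i| < 1}`, anisotropic perimeter with
fields `φ`, `‖sc ε (φ x)‖ ≤ 1`.  Two-dimensional weight `(1-|z|)^b` on the unit disc.
-/

set_option autoImplicit false

open MeasureTheory Set Metric Filter Topology
open scoped ENNReal Real

noncomputable section

namespace Pool.Agent.TH304.MI

/-- The ambient space `ℝ^(b+2)`. -/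
abbrev PP (b : ℕ) := EuclideanSpace ℝ (Fin (b + 2))

/-- Divergence, in the form used by the frozen statement. -/
def dv {n : ℕ} (φ : EuclideanSpace ℝ (Fin n) → EuclideanSpace ℝ (Fin n))
    (x : EuclideanSpace ℝ (Fin n)) : ℝ :=
  LinearMap.trace ℝ (EuclideanSpace ℝ (Fin n)) (fderiv ℝ φ x).toLinearMap

/-- The first two coordinates, as a complex number. -/
def xc {b : ℕ} (p : PP b) : ℂ := ⟨p 0, p 1⟩

/-- The last `b` coordinates. -/
def yc {b : ℕ} (p : PP b) : Fin b → ℝ := fun i => p i.succ.succ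

/-- Scaling of the last `b` coordinates by `ε`. -/
def sc {b : ℕ} (ε : ℝ) (p : PP b) : PP b :=
  WithLp.toLp 2 (fun i => if (i : ℕ) < 2 then p i else ε * p i)

/-- The (rescaled) body `|x| + max |y_i| < 1`. -/
def Om (b : ℕ) : Set (PP b) := {p | ‖xc p‖ < 1 ∧ ∀ i, ‖xc p‖ + |yc p i| < 1}

/-- The part of the body lying over `A`. -/
def cyl (b : ℕ) (A : Set ℂ) : Set (PP b) := {p | p ∈ Om b ∧ xc p ∈ A}

/-- Admissible fields for the `ε`-perimeter. -/
structure Fld {b : ℕ} (ε : ℝ) (Ω : Set (PP b)) (φ : PP b → PP b) : Prop where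
  cd : ContDiff ℝ 1 φ
  cs : HasCompactSupport φ
  sub : tsupport φ ⊆ Ω
  bd : ∀ x, ‖sc ε (φ x)‖ ≤ 1

/-- `PLe ε Ω E C`: the `ε`-perimeter of `E` relative to `Ω` is at most `C`. -/
def PLe {b : ℕ} (ε : ℝ) (Ω E : Set (PP b)) (C : ℝ) : Prop :=
  ∀ φ : PP b → PP b, Fld ε Ω φ → ∫ x in E, dv φ x ≤ C

/-- `E` minimizes the relative `ε`-perimeter in `Ω` among the sets of its volume. -/
def Mnz {b : ℕ} (ε : ℝ) (Ω E : Set (PP b)) : Prop :=
  ∀ F : Set (PP b), MeasurableSet F → F ⊆ Ω → volume F = volume E →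
    ∀ C : ℝ, PLe ε Ω F C → PLe ε Ω E C

/-- The property asserted (for some `c > 0`) by the conjecture: the body of the frozen statement. -/
def FH (c : ℝ) : Prop :=
      ∀ (n : ℕ) (Ω E : Set (EuclideanSpace ℝ (Fin n))),
        IsOpen Ω → Ω.Nonempty → Convex ℝ Ω → Bornology.IsBounded Ω →
        (∀ x ∈ Ω, -x ∈ Ω) →
        MeasurableSet E → E ⊆ Ω →
        MeasureTheory.volume E = MeasureTheory.volume Ω / 2 →
        (∀ F : Set (EuclideanSpace ℝ (Fin n)), MeasurableSet F → F ⊆ Ω →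
          MeasureTheory.volume F = MeasureTheory.volume E →
          ∀ φ : EuclideanSpace ℝ (Fin n) → EuclideanSpace ℝ (Fin n),
            ContDiff ℝ 1 φ → HasCompactSupport φ → tsupport φ ⊆ Ω →
            (∀ x, ‖φ x‖ ≤ 1) →
            ∀ ε : ℝ, 0 < ε →
              ∃ ψ : EuclideanSpace ℝ (Fin n) → EuclideanSpace ℝ (Fin n),
                ContDiff ℝ 1 ψ ∧ HasCompactSupport ψ ∧ tsupport ψ ⊆ Ω ∧
                (∀ x, ‖ψ x‖ ≤ 1) ∧
                (∫ x in E, LinearMap.trace ℝ (EuclideanSpace ℝ (Fin n))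
                    (fderiv ℝ φ x).toLinearMap) ≤
                  (∫ x in F, LinearMap.trace ℝ (EuclideanSpace ℝ (Fin n))
                    (fderiv ℝ ψ x).toLinearMap) + ε) →
        ∃ Γ : ConvexCone ℝ (EuclideanSpace ℝ (Fin n)),
          MeasureTheory.volume ((Ω ∩ (Γ : Set (EuclideanSpace ℝ (Fin n)))) \ E) = 0 ∧
          MeasureTheory.volume ((Ω ∩ {x | -x ∈ Γ}) ∩ E) = 0 ∧
          ENNReal.ofReal c * MeasureTheory.volume Ω ≤
            MeasureTheory.volume (Ω ∩ (Γ : Set (EuclideanSpace ℝ (Fin n))))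

/-! ## The two-dimensional weighted problem -/

/-- The open unit disc. -/
def D1 : Set ℂ := ball (0 : ℂ) 1

/-- Two-dimensional divergence. -/
def dv2 (Z : ℂ → ℂ) (z : ℂ) : ℝ := (fderiv ℝ Z z 1).re + (fderiv ℝ Z z Complex.I).im

/-- Admissible fields for the perimeter with weight `(1-|z|)^b`, supported in `V`. -/
structure Fl2 (b : ℕ) (V : Set ℂ) (Z : ℂ → ℂ) : Prop where
  cd : ContDiff ℝ 1 Z
  cs : HasCompactSupport Z
  sub : tsupport Z ⊆ V
  bd : ∀ z : ℂ, ‖z‖ < 1 → ‖Z z‖ ≤ (1 - ‖z‖) ^ b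

/-- `P2 b V A C`: the weighted perimeter of `A` relative to `V` is at most `C`. -/
def P2 (b : ℕ) (V A : Set ℂ) (C : ℝ) : Prop :=
  ∀ Z : ℂ → ℂ, Fl2 b V Z → ∫ z in A, dv2 Z z ≤ C

/-- Weighted mass (for `A ⊆ D1`). -/
def ms (b : ℕ) (A : Set ℂ) : ℝ := ∫ z in A, (1 - ‖z‖) ^ b

/-- Angular measure of `A` on the circle of radius `r`. -/
def al (A : Set ℂ) (r : ℝ) : ℝ :=
  (volume {θ : ℝ | θ ∈ Ioo (-π) π ∧ (r : ℂ) * Complex.exp (θ * Complex.I) ∈ A}).toReal

/-- `U b r = ∫_0^r s (1-s)^b ds`, in closed form. -/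
def U (b : ℕ) (r : ℝ) : ℝ :=
  (1 - (1 - r) ^ (b + 1) * (1 + (b + 1) * r)) / ((b + 1) * (b + 2))

/-- `m0 b = U b 1 = ∫_0^1 s (1-s)^b ds`. -/
def m0 (b : ℕ) : ℝ := 1 / ((b + 1) * (b + 2))

/-- The set of points whose ray is (almost everywhere) in `A` and whose opposite ray is
(almost everywhere) outside `A`. -/
def XX (A : Set ℂ) : Set ℂ :=
  {z | z ∈ D1 ∧ ∀ᵐ t : ℝ ∂(volume.restrict (Ioo (0 : ℝ) 1)),
    (t : ℂ) * z ∈ A ∧ -((t : ℂ) * z) ∉ A}

end Pool.Agent.TH304.MI
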