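import Pool.Agent.TH304.MI.Defs

/-!
# Project MI: the statements of the steps

Every step is a `Prop`; a job proves `S_xxx` (possibly from other `S_yyy`).
-/

set_option autoImplicit false

open MeasureTheory Set Metric Filter Topology
open scoped ENNReal Real

noncomputable section

namespace Pool.Agent.TH304.MI

/-! ## A. The ambient space -/

/-- Splitting `ℝ^(b+2) = ℂ × ℝ^b`, measure preserving. -/
def S_fub : Prop := ∀ b : ℕ, ∃ e : PP b ≃ᵐ ℂ × (Fin b → ℝ),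
  (∀ p, e p = (xc p, yc p)) ∧ MeasurePreserving e volume volume

/-- Elementary geometry of the body. -/
def S_geo : Prop := ∀ b : ℕ, IsOpen (Om b) ∧ Convex ℝ (Om b) ∧ Bornology.IsBounded (Om b) ∧
  (0 : PP b) ∈ Om b ∧ (∀ p ∈ Om b, -p ∈ Om b) ∧
  (∀ p ∈ Om b, ∀ t ∈ Icc (0 : ℝ) 1, t • p ∈ Om b)

/-- The volume of a cylindrical subset of the body. -/
def S_vol : Prop := ∀ (b : ℕ) (A : Set ℂ), MeasurableSet A → A ⊆ D1 →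
  volume (cyl b A) = ENNReal.ofReal (2 ^ b * ms b A)

/-- Rescaling of the perimeter. -/
def S_cv : Prop := ∀ (b : ℕ) (ε : ℝ), 0 < ε → ∀ E : Set (PP b), MeasurableSet E → E ⊆ Om b →
  ∀ C : ℝ, PLe ε (Om b) E C ↔ PLe 1 (sc ε '' Om b) (sc ε '' E) (ε ^ b * C)

/-- From the frozen hypothesis: minimizers are trapped. -/
def S_tr : Prop := ∀ c : ℝ, 0 < c → FH c → ∀ (b : ℕ) (ε : ℝ), 0 < ε →
  ∀ E : Set (PP b), MeasurableSet E → E ⊆ Om b → volume E = volume (Om b) / 2 →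
    Mnz ε (Om b) E →
    ∃ K : Set (PP b), IsOpen K ∧ K ⊆ Om b ∧ (∀ p ∈ K, ∀ t ∈ Ioo (0 : ℝ) 1, t • p ∈ K) ∧
      ENNReal.ofReal c * volume (Om b) ≤ volume K ∧
      volume (K \ E) = 0 ∧ volume ({p | -p ∈ K} ∩ E) = 0

/-- BV compactness for sets of bounded relative perimeter in a bounded open set. -/
def S_cpt : Prop := ∀ (b : ℕ) (Ω : Set (PP b)), IsOpen Ω → Bornology.IsBounded Ω →
  ∀ (E : ℕ → Set (PP b)) (C : ℝ), (∀ k, MeasurableSet (E k)) → (∀ k, E k ⊆ Ω) →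
    (∀ k, PLe 1 Ω (E k) C) →
    ∃ (E0 : Set (PP b)) (ψ : ℕ → ℕ), MeasurableSet E0 ∧ E0 ⊆ Ω ∧ StrictMono ψ ∧
      Tendsto (fun k => volume (symmDiff (E (ψ k)) E0)) atTop (𝓝 0)

/-- Convergence of the divergence integrals. -/
def S_tend : Prop := ∀ (b : ℕ) (E : ℕ → Set (PP b)) (E0 : Set (PP b)),
  (∀ k, MeasurableSet (E k)) → MeasurableSet E0 →
  Tendsto (fun k => volume (symmDiff (E k) E0)) atTop (𝓝 0) →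
  ∀ φ : PP b → PP b, ContDiff ℝ 1 φ → HasCompactSupport φ →
    Tendsto (fun k => ∫ x in E k, dv φ x) atTop (𝓝 (∫ x in E0, dv φ x))

/-- Existence of half-volume minimizers. -/
def S_ex : Prop := ∀ (b : ℕ) (ε : ℝ), 0 < ε → ε ≤ 1 →
  ∀ (F0 : Set (PP b)) (C0 : ℝ), MeasurableSet F0 → F0 ⊆ Om b →
    volume F0 = volume (Om b) / 2 → PLe ε (Om b) F0 C0 →
    ∃ E : Set (PP b), MeasurableSet E ∧ E ⊆ Om b ∧ volume E = volume (Om b) / 2 ∧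
      Mnz ε (Om b) E

/-- A set with zero `y`-divergence is cylindrical. -/
def S_cyl : Prop := ∀ (b : ℕ) (E0 : Set (PP b)), MeasurableSet E0 → E0 ⊆ Om b →
  (∀ φ : PP b → PP b, ContDiff ℝ 1 φ → HasCompactSupport φ → tsupport φ ⊆ Om b →
    (∀ p, xc (φ p) = 0) → ∫ x in E0, dv φ x = 0) →
  ∃ A : Set ℂ, MeasurableSet A ∧ A ⊆ D1 ∧ volume (symmDiff E0 (cyl b A)) = 0

/-- The perimeter of a cylindrical set is bounded by the weighted perimeter of its base. -/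
def S_up : Prop := ∀ (b : ℕ) (ε : ℝ), 0 < ε → ∀ A : Set ℂ, MeasurableSet A → A ⊆ D1 →
  ∀ C : ℝ, P2 b D1 A C → PLe ε (Om b) (cyl b A) (2 ^ b * C)

/-- Conversely, `x`-fields on the body bound the weighted perimeter of the base (fields
supported off the origin). -/
def S_low : Prop := ∀ (b : ℕ) (A : Set ℂ), MeasurableSet A → A ⊆ D1 → ∀ C : ℝ,
  (∀ φ : PP b → PP b, Fld 1 (Om b) φ → (∀ p, yc (φ p) = 0) →
    ∫ x in cyl b A, dv φ x ≤ 2 ^ b * C) →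
  P2 b (D1 \ {0}) A C

/-- The trapping passes to the limit. -/
def S_trl : Prop := ∀ (b : ℕ) (c : ℝ), 0 < c → ∀ (E K : ℕ → Set (PP b)) (A : Set ℂ),
  (∀ k, MeasurableSet (E k)) → (∀ k, E k ⊆ Om b) → MeasurableSet A → A ⊆ D1 →
  Tendsto (fun k => volume (symmDiff (E k) (cyl b A))) atTop (𝓝 0) →
  (∀ k, IsOpen (K k)) → (∀ k, K k ⊆ Om b) →
  (∀ k, ∀ p ∈ K k, ∀ t ∈ Ioo (0 : ℝ) 1, t • p ∈ K k) →
  (∀ k, ENNReal.ofReal c * volume (Om b) ≤ volume (K k)) →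
  (∀ k, volume (K k \ E k) = 0) → (∀ k, volume ({p | -p ∈ K k} ∩ E k) = 0) →
  c * ms b D1 ≤ ms b (XX A)

/-- The limit object in the disc. -/
structure Lim (b : ℕ) (c : ℝ) (A : Set ℂ) : Prop where
  meas : MeasurableSet A
  sub : A ⊆ D1
  half : ms b A = ms b D1 / 2
  min : ∀ F : Set ℂ, MeasurableSet F → F ⊆ D1 → ms b F = ms b D1 / 2 →
    ∀ C : ℝ, P2 b D1 F C → P2 b (D1 \ {0}) A C
  trap : c * ms b D1 ≤ ms b (XX A)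

/-- Passage to the limit `ε → 0`. -/
def S_lim : Prop := ∀ c : ℝ, 0 < c → FH c → ∀ (b : ℕ) (F0 : Set ℂ) (C0 : ℝ),
  MeasurableSet F0 → F0 ⊆ D1 → ms b F0 = ms b D1 / 2 → P2 b D1 F0 C0 →
  ∃ A : Set ℂ, Lim b c A

/-! ## B. The two-dimensional problem -/

/-- Polar coordinates. -/
def S_pol : Prop := ∀ (A : Set ℂ), MeasurableSet A → A ⊆ D1 → ∀ g : ℝ → ℝ, Measurable g →
  IntegrableOn (fun z : ℂ => g ‖z‖) D1 →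
  (Measurable (al A)) ∧ (∀ r, 0 ≤ al A r ∧ al A r ≤ 2 * π) ∧
  ∫ z in A, g ‖z‖ = ∫ r in Ioo (0 : ℝ) 1, g r * r * al A r

/-- Complements in the disc. -/
def S_alc : Prop := ∀ (A : Set ℂ), MeasurableSet A → A ⊆ D1 → ∀ r ∈ Ioo (0 : ℝ) 1,
  al (D1 \ A) r = 2 * π - al A r

/-- Masses of discs, and the derivative of `U`. -/
def S_U : Prop := ∀ b : ℕ, (∀ r : ℝ, HasDerivAt (U b) (r * (1 - r) ^ b) r) ∧ U b 0 = 0 ∧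
  U b 1 = m0 b ∧ ms b D1 = 2 * π * m0 b ∧
  (∀ t ∈ Icc (0 : ℝ) 1, ms b (ball 0 t) = 2 * π * U b t)

/-- Smooth radial fields. -/
def S_rad : Prop := ∀ (N : ℝ → ℝ), ContDiff ℝ 1 N → HasCompactSupport N →
  tsupport N ⊆ Ioo (0 : ℝ) 1 →
  ContDiff ℝ 1 (fun z : ℂ => ((N ‖z‖ / ‖z‖ ^ 2 : ℝ) : ℂ) * z) ∧
  HasCompactSupport (fun z : ℂ => ((N ‖z‖ / ‖z‖ ^ 2 : ℝ) : ℂ) * z) ∧
  tsupport (fun z : ℂ => ((N ‖z‖ / ‖z‖ ^ 2 : ℝ) : ℂ) * z) ⊆ D1 \ {0} ∧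
  (∀ z : ℂ, ‖((N ‖z‖ / ‖z‖ ^ 2 : ℝ) : ℂ) * z‖ = |N ‖z‖| / ‖z‖) ∧
  (∀ z : ℂ, dv2 (fun z : ℂ => ((N ‖z‖ / ‖z‖ ^ 2 : ℝ) : ℂ) * z) z = deriv N ‖z‖ / ‖z‖)

/-- The circle lemma: a periodic measurable set which is neither null nor full mod `2π` has
`liminf_n (n/2π) ∫ |1_S(θ + 2π/n) - 1_S(θ)| ≥ 2`. -/
def S_circ : Prop := ∀ S : Set ℝ, MeasurableSet S → (∀ θ, θ + 2 * π ∈ S ↔ θ ∈ S) →
  0 < volume (S ∩ Ioo (-π) π) → volume (S ∩ Ioo (-π) π) < ENNReal.ofReal (2 * π) →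
  ∀ δ : ℝ, 0 < δ → ∀ᶠ n : ℕ in atTop,
    2 - δ ≤ (n / (2 * π)) *
      ∫ θ in Ioo (-π) π, |S.indicator (fun _ => (1 : ℝ)) (θ + 2 * π / n) -
        S.indicator (fun _ => (1 : ℝ)) θ|

/-- Radial plus tangential fields: the lower bound for the weighted perimeter. -/
def S_xray : Prop := ∀ (b : ℕ) (A : Set ℂ), MeasurableSet A → A ⊆ D1 → ∀ C : ℝ,
  P2 b (D1 \ {0}) A C →
  ∀ N s : ℝ → ℝ, ContDiff ℝ 1 N → HasCompactSupport N → tsupport N ⊆ Ioo (0 : ℝ) 1 →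
    ContDiff ℝ 1 s → HasCompactSupport s → tsupport s ⊆ Ioo (0 : ℝ) 1 → (∀ r, 0 ≤ s r) →
    (∀ r ∈ Ioo (0 : ℝ) 1, s r ^ 2 + (N r / r) ^ 2 ≤ (1 - r) ^ (2 * b)) →
    (∫ r in Ioo (0 : ℝ) 1, deriv N r * al A r) +
      2 * (∫ r in {r : ℝ | r ∈ Ioo (0 : ℝ) 1 ∧ 0 < al A r ∧ al A r < 2 * π}, s r) ≤ C

/-- Monotonicity of the calibration constants. -/
def S_mono : Prop := ∀ b : ℕ, ∀ r t : ℝ, 0 < r → r ≤ t → t < 1 →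
  (t * (1 - t) ^ b) * U b r ≤ (r * (1 - r) ^ b) * U b t ∧
  (r * (1 - r) ^ b) * (m0 b - U b t) ≤ (t * (1 - t) ^ b) * (m0 b - U b r) ∧
  0 < U b r ∧ 0 < m0 b - U b t

/-- Bound with no radial part. -/
def S_A0 : Prop := ∀ (b : ℕ) (A : Set ℂ), MeasurableSet A → A ⊆ D1 → ∀ C : ℝ,
  P2 b (D1 \ {0}) A C → ∀ τ : ℝ, 0 < τ → τ ≤ 1 →
  (∀ᵐ r ∂(volume.restrict (Ioo (0 : ℝ) τ)), 0 < al A r ∧ al A r < 2 * π) →
  2 * (∫ r in (0 : ℝ)..τ, (1 - r) ^ b) ≤ C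

/-- Bound with a radial part: `A` is empty near the circle of radius `t0`. -/
def S_A : Prop := ∀ (b : ℕ), 1 ≤ b → ∀ (A : Set ℂ), MeasurableSet A → A ⊆ D1 → ∀ C : ℝ,
  P2 b (D1 \ {0}) A C → ∀ t0 τ κ : ℝ, 0 < τ → τ ≤ t0 → t0 < 1 → 0 < κ →
  κ * U b t0 < t0 * (1 - t0) ^ b → κ * (m0 b - U b t0) < t0 * (1 - t0) ^ b →
  Tendsto (fun η : ℝ => η⁻¹ * ∫ r in t0..(t0 + η), al A r) (𝓝[>] 0) (𝓝 0) →
  (∀ᵐ r ∂(volume.restrict (Ioo (0 : ℝ) τ)), 0 < al A r ∧ al A r < 2 * π) →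
  κ * ms b A + 2 * (∫ r in (0 : ℝ)..τ, √((1 - r) ^ (2 * b) - (κ * U b r / r) ^ 2)) ≤ C

/-- Filling a disc, when `A` is full near the circle of radius `t0`. -/
def S_B1 : Prop := ∀ (b : ℕ) (A : Set ℂ), MeasurableSet A → A ⊆ D1 → ∀ C : ℝ,
  P2 b (D1 \ {0}) A C → ∀ t0 κ : ℝ, 0 < t0 → t0 < 1 → 0 < κ →
  κ * U b t0 < t0 * (1 - t0) ^ b →
  Tendsto (fun η : ℝ => η⁻¹ * ∫ r in t0..(t0 + η), (2 * π - al A r)) (𝓝[>] 0) (𝓝 0) →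
  P2 b D1 (A ∪ ball 0 t0) (C - κ * ms b (ball 0 t0 \ A))

/-- Cutting off the outer part. -/
def S_B2 : Prop := ∀ (b : ℕ), 1 ≤ b → ∀ (A : Set ℂ), MeasurableSet A → A ⊆ D1 → ∀ C : ℝ,
  P2 b D1 A C → ∀ R κ : ℝ, 0 < R → R < 1 → κ * (m0 b - U b R) = R * (1 - R) ^ b →
  P2 b D1 (A ∩ ball 0 R) (C + κ * ms b (A \ ball 0 R))

/-- The perimeter of a disc. -/
def S_disc : Prop := ∀ (b : ℕ) (ρ : ℝ), 0 < ρ → ρ < 1 →
  P2 b D1 (ball 0 ρ) (2 * π * ρ * (1 - ρ) ^ b)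

/-- The divergence of an admissible field has integral zero. -/
def S_dz : Prop := ∀ (b : ℕ) (Z : ℂ → ℂ), Fl2 b D1 Z → ∫ z in D1, dv2 Z z = 0

/-- Lebesgue points of the angular measure. -/
def S_leb : Prop := ∀ A : Set ℂ, MeasurableSet A → A ⊆ D1 → ∀ᵐ r : ℝ,
  Tendsto (fun η : ℝ => η⁻¹ * ∫ s in r..(r + η), al A s) (𝓝[>] 0) (𝓝 (al A r))

/-- Consequences of trapping. -/
def S_trap : Prop := ∀ (b : ℕ) (A : Set ℂ), MeasurableSet A → A ⊆ D1 → 0 < ms b (XX A) →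
  (∃ σ : ℝ, 0 < σ ∧ σ < 1 ∧
    ∀ᵐ r ∂(volume.restrict (Ioo (0 : ℝ) σ)), 0 < al A r ∧ al A r < 2 * π) ∧
  (∀ t ∈ Ioo (0 : ℝ) 1, 0 < volume {r : ℝ | r ∈ Ioo 0 t ∧ (al A r = 0 ∨ al A r = 2 * π)} →
    ms b (XX A) ≤ ms b (A ∩ ball 0 t) ∧ ms b (XX A) ≤ ms b (ball 0 t \ A))

/-- Numerics: the half-mass disc. -/
def S_num : Prop := ∀ b : ℕ, 10000 ≤ b → ∃ ρ : ℝ, 0 < ρ ∧ ρ < 1 ∧
  U b ρ = m0 b / 2 ∧ 2 * π * ρ * (1 - ρ) ^ b ≤ 1.9695 / (b + 1)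

/-- Numerics: lower bounds (`κ = 0.37 (b+2)` on `[0.6,2.2]/(b+1)`, `κ = 0.065 (b+2)` on
`[2.2,4.2]/(b+1)`, `κ = 0` beyond). -/
def S_numA : Prop := ∀ b : ℕ, 10000 ≤ b →
  (∀ t : ℝ, 0.6 / (b + 1) ≤ t → t ≤ 2.2 / (b + 1) →
    0.37 * (b + 2) * U b t < t * (1 - t) ^ b ∧
    0.37 * (b + 2) * (m0 b - U b t) < t * (1 - t) ^ b) ∧
  (∀ t : ℝ, 2.2 / (b + 1) ≤ t → t ≤ 4.2 / (b + 1) →
    0.065 * (b + 2) * U b t < t * (1 - t) ^ b ∧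
    0.065 * (b + 2) * (m0 b - U b t) < t * (1 - t) ^ b) ∧
  1.9699 / (b + 1) ≤ 0.37 * (b + 2) * (π * m0 b) +
    2 * (∫ r in (0 : ℝ)..(0.6 / (b + 1)),
      √((1 - r) ^ (2 * b) - (0.37 * (b + 2) * U b r / r) ^ 2)) ∧
  1.9699 / (b + 1) ≤ 0.065 * (b + 2) * (π * m0 b) +
    2 * (∫ r in (0 : ℝ)..(2.2 / (b + 1)),
      √((1 - r) ^ (2 * b) - (0.065 * (b + 2) * U b r / r) ^ 2)) ∧
  1.9699 / (b + 1) ≤ 2 * (∫ r in (0 : ℝ)..(4.2 / (b + 1)), (1 - r) ^ b)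

/-- Numerics for small radii: `κ_in ≥ 2.5 (b+2)` on `(0, 0.6/(b+1)]`, `κ_out ≤ 2 (b+2)` on
`(0,1/2]`, less than half of the mass in the disc of radius `0.6/(b+1)`, and little mass
outside the disc of radius `1/2`. -/
def S_numB : Prop := (∀ b : ℕ, 10000 ≤ b →
  (∀ t : ℝ, 0 < t → t ≤ 0.6 / (b + 1) → 2.5 * (b + 2) * U b t < t * (1 - t) ^ b) ∧
  (∀ R : ℝ, 0 < R → R ≤ 1 / 2 → R * (1 - R) ^ b ≤ 2 * (b + 2) * (m0 b - U b R)) ∧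
  U b (0.6 / (b + 1)) < m0 b / 2) ∧
  (∀ c : ℝ, 0 < c → ∃ b0 : ℕ, ∀ b : ℕ, b0 ≤ b → m0 b - U b (1 / 2) < c * m0 b)

/-- The two-dimensional theorem: for `b` large there is no limit object. -/
def S_t2d : Prop := ∀ c : ℝ, 0 < c → ∃ b : ℕ, 10000 ≤ b ∧ ∀ A : Set ℂ, ¬ Lim b c A

/-- The final statement. -/
def S_fin : Prop := ¬ ∃ c : ℝ, 0 < c ∧ FH c

end Pool.Agent.TH304.MI
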